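import Pool.Agent.helper78.HFN.Spec

set_option autoImplicit false

open Polynomial Module

namespace Pool.Agent.HFN

noncomputable section

theorem SL2_mem (S : Finset (ℂ × ℂ)) (a b : ℕ) (f : AA) :
    f ∈ (V a b ⊓ (JJ S (fun _ => 1)).restrictScalars ℂ : Submodule ℂ AA) ↔ f ∈ V a b ∧ ∀ w ∈ S, ev w f = 0 := by
  rw [Submodule.mem_inf, Submodule.restrictScalars_mem, mem_JJ]
  constructor
  · rintro ⟨h1, h2⟩
    exact ⟨h1, fun w hw => (h2 w hw).1 le_rfl⟩
  · rintro ⟨h1, h2⟩
    exact ⟨h1, fun w hw => ⟨fun _ => h2 w hw, fun h => absurd h (by norm_num)⟩⟩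

open Classical in
theorem SL2_nn_insert (Z : Finset (ℂ × ℂ)) (z : ℂ × ℂ) (hz : z ∉ Z) (E : AA) :
    nn (insert z Z) E = nn Z E + if ev z E = 0 then 1 else 0 := by
  unfold nn
  rw [Finset.filter_insert]
  by_cases h : ev z E = 0
  · rw [if_pos h, if_pos h, Finset.card_insert_of_notMem]
    intro h1
    exact hz (Finset.mem_of_mem_filter z h1)
  · rw [if_neg h, if_neg h, add_zero]

theorem SL2_ind (hSL1 : SL1_stmt) (m : ℕ) (Cs : Fin m → AA) (hI : ∀ t, Irreducible (Cs t))
    (hA : ∀ t t', t ≠ t' → ¬ Associated (Cs t) (Cs t')) (p q : ℕ) :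
    ∀ N : ℕ, ∀ n : Fin m → ℕ, ∑ t, n t = N → ∃ Z : Finset (ℂ × ℂ), Z.card = ∑ t, n t ∧ (∀ t, nn Z (Cs t) = n t) ∧
      ∀ a b : ℕ, a ≤ p → b ≤ q → ∀ S ⊆ Z, ∀ E : AA, Irreducible E → (∀ t, ¬ Associated E (Cs t)) → E ∈ V a b →
        (∀ w ∈ S, ev w E = 0) → hd (JJ S (fun _ => 1)) a b + S.card ≤ (a + 1) * (b + 1) := by
  classical
  intro N
  induction N with
  | zero =>
    intro n hn
    have h0 : ∀ t, n t = 0 := by
      intro t
      exact (Finset.sum_eq_zero_iff.mp hn) t (Finset.mem_univ t)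
    refine ⟨∅, by rw [hn, Finset.card_empty], fun t => ?_, ?_⟩
    · rw [h0 t]
      unfold nn
      rw [Finset.filter_empty, Finset.card_empty]
    · intro a b _ _ S hS E _ _ _ _
      have hS0 : S = ∅ := Finset.subset_empty.mp hS
      rw [hS0, Finset.card_empty, add_zero]
      unfold hd
      rw [← finrank_V a b]
      exact Submodule.finrank_mono inf_le_left
  | succ N ih =>
    intro n hn
    obtain ⟨t, ht⟩ : ∃ t, 1 ≤ n t := by
      by_contra hcon
      have h1 : ∀ t, n t = 0 := by
        intro t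
        by_contra h2
        exact hcon ⟨t, Nat.one_le_iff_ne_zero.mpr h2⟩
      have h3 : ∑ t, n t = 0 := Finset.sum_eq_zero fun t _ => h1 t
      omega
    set n' : Fin m → ℕ := Function.update n t (n t - 1) with hn'
    have hsum : ∑ s, n' s + 1 = ∑ s, n s := by
      rw [← Finset.add_sum_erase Finset.univ n (Finset.mem_univ t), ← Finset.add_sum_erase Finset.univ n' (Finset.mem_univ t)]
      have h1 : n' t = n t - 1 := by rw [hn', Function.update_self]
      have h2 : ∑ x ∈ Finset.univ.erase t, n' x = ∑ x ∈ Finset.univ.erase t, n x := by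
        apply Finset.sum_congr rfl
        intro x hx
        rw [hn', Function.update_of_ne (Finset.ne_of_mem_erase hx)]
      rw [h1, h2]
      omega
    obtain ⟨Z₀, hc₀, hn₀, hinv⟩ := ih n' (by omega)
    obtain ⟨z, hz1, hz2, hz3, hz4⟩ := hSL1 m Cs hI hA t Z₀ p q
    refine ⟨insert z Z₀, ?_, ?_, ?_⟩
    · rw [Finset.card_insert_of_notMem hz2, hc₀, hsum]
    · intro s
      rw [SL2_nn_insert Z₀ z hz2, hn₀ s]
      by_cases hst : s = t
      · rw [hst, if_pos hz1, hn', Function.update_self]
        omega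
      · rw [if_neg (hz3 s hst), hn', Function.update_of_ne hst, add_zero]
    · intro a b ha hb S hS E hE hEn hEV hES
      by_cases hzS : z ∈ S
      · have hS0 : S.erase z ⊆ Z₀ := by
          intro w hw
          have h1 := hS (Finset.mem_of_mem_erase hw)
          rcases Finset.mem_insert.mp h1 with h2 | h2
          · exact absurd h2 (Finset.ne_of_mem_erase hw)
          · exact h2
        have hE0 : ∀ w ∈ S.erase z, ev w E = 0 := fun w hw => hES w (Finset.mem_of_mem_erase hw)
        have h1 := hinv a b ha hb (S.erase z) hS0 E hE hEn hEV hE0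
        have hnd : ¬ Cs t ∣ E := by
          intro hd'
          exact hEn t ((hI t).associated_of_dvd hE hd').symm
        obtain ⟨f, hf1, hf2, hf3⟩ := hz4 a b ha hb (S.erase z) hS0 ⟨E, hEV, hE0, hnd⟩
        have hlt : hd (JJ S (fun _ => 1)) a b < hd (JJ (S.erase z) (fun _ => 1)) a b := by
          unfold hd
          apply Submodule.finrank_lt_finrank_of_lt
          refine lt_of_le_of_ne ?_ ?_
          · intro g hg
            rw [SL2_mem] at hg ⊢
            exact ⟨hg.1, fun w hw => hg.2 w (Finset.mem_of_mem_erase hw)⟩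
          · intro heq
            have h2 : f ∈ (V a b ⊓ (JJ S (fun _ => 1)).restrictScalars ℂ : Submodule ℂ AA) := by
              rw [heq, SL2_mem]
              exact ⟨hf1, hf2⟩
            rw [SL2_mem] at h2
            exact hf3 (h2.2 z hzS)
        have hcard : S.card = (S.erase z).card + 1 := (Finset.card_erase_add_one hzS).symm
        omega
      · have hS0 : S ⊆ Z₀ := by
          intro w hw
          rcases Finset.mem_insert.mp (hS hw) with h2 | h2
          · rw [h2] at hw
            exact absurd hw hzS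
          · exact h2
        exact hinv a b ha hb S hS0 E hE hEn hEV hES

theorem SL2 (hSL1 : SL1_stmt) : SL2_stmt := by
  classical
  intro m Cs hI hA n p q
  obtain ⟨Z, h1, h2, h3⟩ := SL2_ind hSL1 m Cs hI hA p q _ n rfl
  refine ⟨Z, h1, h2, ?_⟩
  intro E hE hEn hdx hdy
  have hEV : E ∈ V (dX E) (dY E) := ⟨le_rfl, le_rfl⟩
  have h4 := h3 (dX E) (dY E) hdx hdy (Z.filter fun z => ev z E = 0) (Finset.filter_subset _ _) E hE hEn hEV
    (fun w hw => (Finset.mem_filter.mp hw).2)
  have h5 : 1 ≤ hd (JJ (Z.filter fun z => ev z E = 0) (fun _ => 1)) (dX E) (dY E) := by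
    unfold hd
    have hmem : E ∈ (V (dX E) (dY E) ⊓ (JJ (Z.filter fun z => ev z E = 0) (fun _ => 1)).restrictScalars ℂ : Submodule ℂ AA) := by
      rw [SL2_mem]
      exact ⟨hEV, fun w hw => (Finset.mem_filter.mp hw).2⟩
    refine Submodule.one_le_finrank_iff.mpr fun h => hE.ne_zero ?_
    rw [h] at hmem
    exact (Submodule.mem_bot ℂ).mp hmem
  have h6 : nn Z E = (Z.filter fun z => ev z E = 0).card := by
    unfold nn
    congr 1
  omega

end

end Pool.Agent.HFN
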